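import Pool.Agent.Helper36.CQ.St

/-! Project CQ (helper36), module MOD. -/

set_option autoImplicit false

namespace Pool.Agent.Helper73.CQ
open Cardinal Set Pool.Agent.Helper36.CQ
universe u

/-- In the well-order of type `succ μ` every set of size at most `μ` has a strict upper bound. -/
theorem bdd (μ : Cardinal.{u}) (hμ : ℵ₀ ≤ μ) (A : Set (Order.succ μ).ord.ToType) (hA : #A ≤ μ) :
    ∃ b, ∀ a ∈ A, a < b := by
  by_contra hcon
  push Not at hcon
  have h1 : (⋃ a ∈ A, Iic a) = (Set.univ : Set (Order.succ μ).ord.ToType) := by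
    ext b
    obtain ⟨a, ha, hb⟩ := hcon b
    simp only [mem_iUnion, mem_Iic, mem_univ, iff_true]
    exact ⟨a, ha, hb⟩
  have h2 : ∀ a : (Order.succ μ).ord.ToType, #(Iic a) ≤ μ := by
    intro a
    have h3 : #(Iio a) ≤ μ := by
      have : #(Iio a) < Order.succ μ := by simpa using mk_Iio_lt a
      exact Order.lt_succ_iff.1 this
    have h4 : Iic a = insert a (Iio a) := by
      ext b
      simp only [mem_Iic, mem_insert_iff, mem_Iio]
      exact le_iff_eq_or_lt
    rw [h4]
    refine (Cardinal.mk_insert_le).trans ?_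
    exact (add_le_add h3 (one_le_aleph0.trans hμ)).trans (le_of_eq (add_eq_self hμ))
  have h5 : #(Set.univ : Set (Order.succ μ).ord.ToType) ≤ μ := by
    rw [← h1]
    refine (Cardinal.mk_biUnion_le _ _).trans ?_
    have h6 : (⨆ x : A, #(Iic x.1)) ≤ μ := by
      apply ciSup_le'
      intro x
      exact h2 x.1
    exact (mul_le_mul' hA h6).trans (le_of_eq (mul_eq_self hμ))
  rw [mk_univ, mk_ord_toType] at h5
  exact absurd h5 (not_le.2 (Order.lt_succ μ))

theorem closure_fin {L : FirstOrder.Language.{0, 0}} {M : Type u} [L.Structure M] (X N : Set M)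
    {y : M} (hy : y ∈ FirstOrder.Language.Substructure.closure L (X ∪ N)) :
    ∃ s : Finset M, (s : Set M) ⊆ X ∧
      y ∈ FirstOrder.Language.Substructure.closure L ((s : Set M) ∪ N) := by
  classical
  refine FirstOrder.Language.Substructure.closure_induction
    (p := fun y => ∃ s : Finset M, (s : Set M) ⊆ X ∧
      y ∈ FirstOrder.Language.Substructure.closure L ((s : Set M) ∪ N)) hy ?_ ?_
  · rintro x (hx | hx)
    · refine ⟨{x}, by simpa using hx, ?_⟩
      exact FirstOrder.Language.Substructure.subset_closure (Or.inl (by simp))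
    · exact ⟨∅, by simp, FirstOrder.Language.Substructure.subset_closure (Or.inr hx)⟩
  · intro n f x hx
    have hx' : ∀ i, ∃ s : Finset M, (s : Set M) ⊆ X ∧
      x i ∈ FirstOrder.Language.Substructure.closure L ((s : Set M) ∪ N) := hx
    choose s hs1 hs2 using hx'
    refine ⟨Finset.univ.biUnion s, ?_, ?_⟩
    · intro y hy
      rw [Finset.mem_coe, Finset.mem_biUnion] at hy
      obtain ⟨i, _, hi⟩ := hy
      exact hs1 i hi
    · apply FirstOrder.Language.Substructure.fun_mem
      intro i
      refine FirstOrder.Language.Substructure.closure_mono ?_ (hs2 i)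
      refine union_subset_union_left _ ?_
      intro y hy
      rw [Finset.mem_coe, Finset.mem_biUnion]
      exact ⟨i, Finset.mem_univ _, hy⟩

theorem card_clo {L : FirstOrder.Language.{0, 0}} {M : Type u} [L.Structure M]
    (hL : #(Σ i, L.Functions i) ≤ ℵ₀) (X : Set M) :
    #(FirstOrder.Language.Substructure.closure L X) ≤ max ℵ₀ #X := by
  have h := FirstOrder.Language.Substructure.lift_card_closure_le (L := L) (s := X)
  rw [lift_uzero, lift_uzero] at h
  refine h.trans (max_le (le_max_left _ _) ?_)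
  have h2 : lift.{u, 0} #(Σ i, L.Functions i) ≤ ℵ₀ := by
    rw [← lift_aleph0.{u, 0}]
    exact lift_le.2 hL
  refine (add_le_add le_rfl h2).trans ?_
  have h3 : #X + ℵ₀ ≤ max ℵ₀ #X + max ℵ₀ #X := add_le_add (le_max_right _ _) (le_max_left _ _)
  exact h3.trans (le_of_eq (add_eq_self (le_max_left _ _)))

open FirstOrder.Language in
theorem mMOD : StMod.{u} := by
  classical
  intro α γ μ hμ hγ hF L M _ U hL hM hU
  obtain ⟨e⟩ : Nonempty (α ≃ M) := Cardinal.eq.1 hM.symm
  have hW : #(Order.succ μ).ord.ToType = Order.succ μ := mk_ord_toType _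
  obtain ⟨g⟩ : Nonempty (γ ≃ (Order.succ μ).ord.ToType) := Cardinal.eq.1 (hγ.trans hW.symm)
  obtain ⟨o⟩ : Nonempty (U ≃ (Order.succ μ).ord.ToType) := Cardinal.eq.1 (hU.trans hW.symm)
  have hsuc : ℵ₀ ≤ Order.succ μ := hμ.trans (Order.le_succ μ)
  have hUne : Nonempty U := by
    rw [← mk_ne_zero_iff, hU]
    exact (aleph0_pos.trans_le hsuc).ne'
  have : Nonempty M := ⟨(hUne.some : M)⟩
  obtain ⟨M₀, hM₀U, hM₀⟩ := Cardinal.le_mk_iff_exists_subset.1
    (show μ ≤ #U from hU ▸ Order.le_succ μ)
  have hfun : #(Σ i, (L.sum L.skolem₁).Functions i) ≤ ℵ₀ :=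
    card_functions_sum_skolem₁_le.trans (max_le le_rfl hL)
  -- the traces
  have hA : ∀ s : Finset M,
      #{w : (Order.succ μ).ord.ToType | ∃ y : U,
        (y : M) ∈ Substructure.closure (L.sum L.skolem₁) ((s : Set M) ∪ M₀) ∧ o y = w} ≤ μ := by
    intro s
    have h1 : #(Substructure.closure (L.sum L.skolem₁) ((s : Set M) ∪ M₀)) ≤ μ := by
      refine (card_clo hfun _).trans (max_le hμ ?_)
      refine (mk_union_le _ _).trans ?_
      rw [hM₀]
      have h2 : #(s : Set M) ≤ μ := (s.finite_toSet.lt_aleph0.le).trans hμ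
      exact (add_le_add h2 le_rfl).trans (le_of_eq (add_eq_self hμ))
    refine le_trans ?_ h1
    have hinj : ∀ w : {w : (Order.succ μ).ord.ToType | ∃ y : U,
        (y : M) ∈ Substructure.closure (L.sum L.skolem₁) ((s : Set M) ∪ M₀) ∧ o y = w},
        ((o.symm w.1 : U) : M) ∈
          Substructure.closure (L.sum L.skolem₁) ((s : Set M) ∪ M₀) := by
      rintro ⟨w, y, hy, rfl⟩
      simpa using hy
    refine mk_le_of_injective (f := fun w => ⟨((o.symm w.1 : U) : M), hinj w⟩) ?_
    intro w w' h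
    have h3 : ((o.symm w.1 : U) : M) = ((o.symm w'.1 : U) : M) := Subtype.mk.inj h
    exact Subtype.ext (o.symm.injective (Subtype.ext h3))
  choose Fb hFb using fun s : Finset M => bdd μ hμ _ (hA s)
  obtain ⟨X', hX', hXF⟩ := hF (fun t => g.symm (Fb (t.map e.toEmbedding)))
  have hXc : #(e '' X') = Order.succ μ := by
    rw [mk_image_eq e.injective, hX', hγ]
  have hD : #{w : (Order.succ μ).ord.ToType | ∃ s : Finset M, (s : Set M) ⊆ e '' X' ∧ Fb s = w}
      ≤ μ := by
    rw [hγ, Order.lt_succ_iff] at hXF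
    refine le_trans ?_ hXF
    have hinj : ∀ w : {w : (Order.succ μ).ord.ToType |
        ∃ s : Finset M, (s : Set M) ⊆ e '' X' ∧ Fb s = w},
        g.symm w.1 ∈ (fun t : Finset α => g.symm (Fb (t.map e.toEmbedding))) ''
          {s : Finset α | (s : Set α) ⊆ X'} := by
      rintro ⟨w, s, hs, rfl⟩
      refine ⟨s.map e.symm.toEmbedding, ?_, ?_⟩
      · intro x hx
        rw [Finset.mem_coe, Finset.mem_map] at hx
        obtain ⟨y, hy, rfl⟩ := hx
        obtain ⟨x', hx', hxy⟩ := hs hy
        simp only [Equiv.coe_toEmbedding]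
        rw [← hxy, e.symm_apply_apply]
        exact hx'
      · have : (s.map e.symm.toEmbedding).map e.toEmbedding = s := by
          ext y
          simp
        simp only [this]
    refine mk_le_of_injective (f := fun w => ⟨g.symm w.1, hinj w⟩) ?_
    intro w w' h
    exact Subtype.ext (g.symm.injective (congrArg Subtype.val h))
  obtain ⟨b, hb⟩ := bdd μ hμ _ hD
  set C := Substructure.closure (L.sum L.skolem₁) (e '' X' ∪ M₀) with hC
  have hsub : e '' X' ∪ M₀ ⊆ (C : Set M) := Substructure.subset_closure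
  have hCU : #((C : Set M) ∩ U : Set M) = μ := by
    apply le_antisymm
    · have h1 : ∀ y : ((C : Set M) ∩ U : Set M), o ⟨y.1, y.2.2⟩ ∈ Iio b := by
        rintro ⟨y, hy, hyU⟩
        obtain ⟨s, hs, hys⟩ := closure_fin _ _ hy
        have h2 := hFb s (o ⟨y, hyU⟩) ⟨⟨y, hyU⟩, hys, rfl⟩
        have h3 := hb (Fb s) ⟨s, hs, rfl⟩
        exact lt_trans h2 h3
      have h2 : #((C : Set M) ∩ U : Set M) ≤ #(Iio b) := by
        refine mk_le_of_injective (f := fun y => ⟨o ⟨y.1, y.2.2⟩, h1 y⟩) ?_
        intro y y' h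
        have h3 : o ⟨y.1, y.2.2⟩ = o ⟨y'.1, y'.2.2⟩ := Subtype.mk.inj h
        have h4 := o.injective h3
        exact Subtype.ext (Subtype.mk.inj h4)
      refine h2.trans ?_
      have h5 : #(Iio b) < Order.succ μ := by simpa using mk_Iio_lt b
      exact Order.lt_succ_iff.1 h5
    · rw [← hM₀]
      refine mk_le_mk_of_subset ?_
      exact subset_inter ((subset_union_right).trans hsub) hM₀U
  have hCc : #C = Order.succ μ := by
    apply le_antisymm
    · refine (card_clo hfun _).trans (max_le hsuc ?_)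
      refine (mk_union_le _ _).trans ?_
      rw [hXc, hM₀]
      exact (add_le_add le_rfl (Order.le_succ μ)).trans (le_of_eq (add_eq_self hsuc))
    · rw [← hXc]
      exact mk_le_mk_of_subset ((subset_union_left).trans hsub)
  refine ⟨C.elementarySkolem₁Reduct, ?_, ?_⟩
  · rw [Substructure.coeSort_elementarySkolem₁Reduct]
    exact hCc
  · exact hCU

end Pool.Agent.Helper73.CQ
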